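import Pool.Agent.Work.MP_ffcd14_ag.Uni.Z7

/-! # Varieties with a uniruled smooth complete intersection fourfold -/

open MvPolynomial Topology TopologicalSpace

namespace Pool.Agent.Work.MP_ffcd14_ag.Sct

universe u v w

variable {k : Type u} [Field k] {K : Type v} [Field K] {P : Amb} (C : WeilL.{u, v, w} k K)

theorem pull_lin {S X : Var k P} (j : Hom S X) (hj : ∀ x, (j.toFun x).1 = x.1) (a : P.ι →₀ ℕ) :
    C.pull j (lin (C.hyp X) a) = lin (C.hyp S) a := by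
  have h : ∀ i, C.pull j (C.hyp X i) = C.hyp S i := fun i => by
    rw [C.hyp_pull j i (Finsupp.single i 1) (fun s => MvPolynomial.X ⟨i, s⟩)
      (fun s => IsForm.X ⟨i, s⟩) fun x => by rw [hj]; exact blk_mk x.1 i]
    simp [lin]
  rw [← W.plH_apply, lin, lin, map_finsuppSum]
  simp only [map_nsmul, W.plH_apply, h]

/-- What is used about an iterated section. -/
structure Dat (S X : Var k P) (a : P.ι →₀ ℕ) (m : ℕ) (j : Hom S X) : Prop where
  incl : ∀ x, (j.toFun x).1 = x.1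
  dim : S.dim + m = X.dim
  tr : ∀ x, C.tr X (lin (C.hyp X) a ^ m * x) = C.tr S (C.pull j x)
  surj : ∀ i < S.dim, ∀ y, C.deg S i y → ∃ x, C.deg X i x ∧ C.pull j x = y

theorem exists_dat {a : P.ι →₀ ℕ} (ha : ∀ i, 0 < a i) {S X : Var k P}
    (h : Relation.TransGen (fun Y Z : Var k P => ∃ j : Hom Y Z, IsSec j a) S X) :
    ∃ m j, Dat C S X a m j := by
  induction h with
  | single h =>
    obtain ⟨j, hj⟩ := h
    exact ⟨1, j, hj.1, hj.2.1, fun x => by rw [pow_one, C.sec_tr j a hj], C.weak_surj j a hj ha⟩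
  | @tail Y Z _ h ih =>
    obtain ⟨j, hj⟩ := h
    obtain ⟨m, i, hi⟩ := ih
    have e := C.pull_comp i j (j.comp i) fun _ => rfl
    refine ⟨m + 1, j.comp i, fun x => (hj.1 _).trans (hi.incl x), by
      have := hi.dim; have := hj.2.1; omega, fun x => ?_, fun n hn y hy => ?_⟩
    · rw [e, ← hi.tr, pow_succ', mul_assoc, C.sec_tr j a hj, ← W.plH_apply, map_mul, map_pow,
        W.plH_apply, W.plH_apply, pull_lin C j hj.1]
    · obtain ⟨x, hx, rfl⟩ := hi.surj n hn y hy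
      obtain ⟨z, hz, rfl⟩ := C.weak_surj j a hj ha n (by have := hi.dim; omega) x hx
      exact ⟨z, hz, e z⟩

variable [IsAlgClosed k] [CharZero K] (hC : C.toWeil.Chow)
include hC

/-- Algebraic classes push forward along an inclusion. -/
theorem push_alg {S X : Var k P} (hS : IsIrreducible S.pts) (hX : IsIrreducible X.pts)
    (j : Hom S X) (hj : ∀ x, (j.toFun x).1 = x.1) {m c : ℕ} (hm : S.dim + m = X.dim) {y : C.H S}
    (hy : y ∈ C.A S c) :
    ∃ z ∈ C.A X (c + m), ∀ x, C.tr X (z * x) = C.tr S (y * C.pull j x) := by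
  have tS := (C.pd S).2.1
  have tX := (C.pd X).2.1
  induction hy using AddSubgroup.closure_induction with
  | mem y hy =>
    obtain ⟨q, Z, hZ, rfl⟩ := hy
    have hs : (S.amb Z : Set (P.Pt k)) ⊆ X.pts := by
      rintro _ ⟨x, -, rfl⟩
      exact hj x ▸ (j.toFun x).2
    obtain ⟨n, h1, h2⟩ := hC.2.1 j Z (X.res (S.amb Z) hs) (by
      rw [← (X.res (S.amb Z) hs).isClosed.closure_eq]
      congr 1
      ext z
      exact ⟨fun ⟨x, hx, e⟩ => ⟨x, hx, by rw [← e, hj]⟩,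
        fun ⟨x, hx, e⟩ => ⟨x, hx, Subtype.ext ((hj x).trans e)⟩⟩)
    refine ⟨((q * n : ℚ) : K) • C.cl X (X.res (S.amb Z) hs), AddSubgroup.subset_closure
      ⟨_, _, ?_, rfl⟩, fun x => ?_⟩
    · have := (S.coheight_iff hS Z c).1 hZ
      exact (X.coheight_iff hX _ _).2 (by rw [X.amb_res]; omega)
    · rw [smul_mul_assoc, smul_mul_assoc, tS.map_smul, tX.map_smul, h2]
      simp [mul_assoc]
  | zero => exact ⟨0, zero_mem _, fun x => by simp [tS.map_zero, tX.map_zero]⟩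
  | add y y' _ _ h h' =>
    obtain ⟨z, hz, e⟩ := h
    obtain ⟨z', hz', e'⟩ := h'
    exact ⟨z + z', add_mem hz hz', fun x => by
      rw [add_mul, add_mul, tS.map_add, tX.map_add, e, e']⟩
  | neg y _ h =>
    obtain ⟨z, hz, e⟩ := h
    exact ⟨-z, neg_mem hz, fun x => by rw [neg_mul, neg_mul, tS.map_neg, tX.map_neg, e]⟩

/-- Divisor classes of the section are restrictions of divisor classes. -/
theorem div_res {S X : Var k P} (hS : IsIrreducible S.pts) (hX : IsIrreducible X.pts)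
    {a : P.ι →₀ ℕ} (ha : ∀ i, 0 < a i) {m : ℕ} {j : Hom S X} (h : Dat C S X a m j)
    (hd : S.dim = 4) (hL : LefA X.dim (C.A X) (lin (C.hyp X) a)) {y : C.H S} (hy : y ∈ C.A S 1) :
    ∃ x ∈ C.A X 1, C.pull j x = y := by
  obtain ⟨x, hx, rfl⟩ := h.surj 2 (by omega) y (C.alg_gr S 1 y hy)
  obtain ⟨z, hz, e⟩ := push_alg C hC hS hX j h.incl h.dim hy
  have ez : z = lin (C.hyp X) a ^ m * x := W.n1_pd C.toWeil X fun w => by
    rw [e, mul_assoc, h.tr, ← W.plH_apply, ← W.plH_apply, ← W.plH_apply, map_mul]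
  have hl : lin (C.hyp X) a ∈ C.A X 1 := by
    rw [← W.vl_ln]
    exact glue_ln (C := W.nt C.toWeil) X a
  have h2 : lin (C.hyp X) a * (lin (C.hyp X) a * z) ∈ C.A X (1 + (m + 2)) := by
    have := C.alg_mul X 1 _ _ _ hl (C.alg_mul X 1 _ _ _ hl hz)
    rwa [show 1 + (1 + (1 + m)) = 1 + (m + 2) by omega] at this
  obtain ⟨x', hx', e'⟩ := hL 1 (m + 2) (by have := h.dim; omega) _ h2
  have h0 := C.hard X a ha 2 (m + 2) (by have := h.dim; omega) (x - x')
    ((C.gr_iff X 2 _).1 (sub_mem ((C.gr_iff X 2 _).2 hx)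
      ((C.gr_iff X 2 _).2 (C.alg_gr X 1 _ hx')))) (by
      rw [mul_sub, ← e', ez, ← mul_assoc, ← mul_assoc, ← pow_two, ← pow_add, add_comm, sub_self])
  exact ⟨x', hx', by rw [sub_eq_zero.1 h0]⟩

omit hC in
theorem sh_iff (X : Var k P) (m : ℕ) (a : P.ι →₀ ℕ) :
    SH (W.nt C.toWeil) X m (ln (W.nt C.toWeil) X a) ↔ ∀ y ∈ W.AA C.toWeil X 2,
      (∀ D ∈ W.AA C.toWeil X 1, W.tau C.toWeil X (W.ln C.toWeil X a ^ (m + 1) * y * D) = 0) →
        0 ≤ W.tau C.toWeil X (W.ln C.toWeil X a ^ m * y * y) := Iff.rfl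

theorem sec_sh {S X : Var k P} (hU : Uniruled S) (hX : IsIrreducible X.pts)
    {a : P.ι →₀ ℕ} (ha : ∀ i, 0 < a i) {m : ℕ} {j : Hom S X} (h : Dat C S X a m j)
    (hd : S.dim = 4) (hL : LefA X.dim (C.A X) (lin (C.hyp X) a)) :
    SH (W.nt C.toWeil) X m (ln (W.nt C.toWeil) X a) := by
  refine (sh_iff C X m a).2 fun y hy hp => ?_
  have key : ∀ w : W.EE C.toWeil X, W.tau C.toWeil X (W.ln C.toWeil X a ^ m * w) =
      W.tau C.toWeil S (W.pl C.toWeil j w) := fun w => by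
    rw [W.tau_eq, W.tau_eq, map_mul, map_pow, W.vl_ln, h.tr, W.vl_pl]
  have el : W.pl C.toWeil j (W.ln C.toWeil X a) = W.ln C.toWeil S a :=
    W.vl_inj C.toWeil S (by rw [W.vl_pl, W.vl_ln, W.vl_ln, pull_lin C j h.incl])
  have := (sh_iff C S 0 a).1 (Uni.uni_sh (W.nt_chow hC) hU hd ha) _ (W.AA_pl C.toWeil j hy)
    fun D hD => by
      obtain ⟨x, hx, e⟩ := div_res C hC hU.irr hX ha h hd hL hD
      obtain ⟨x', hx', rfl⟩ := W.exists_vl C.toWeil X hx
      obtain rfl : W.pl C.toWeil j x' = D := W.vl_inj C.toWeil S (by rw [W.vl_pl, e])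
      rw [zero_add, pow_one, ← el, ← map_mul, ← map_mul, ← key, ← hp x' hx']
      congr 1
      ring
  rwa [pow_zero, one_mul, ← map_mul, ← key, ← mul_assoc] at this

omit hC in
theorem ample_mem {X : Var k P} {l : C.H X} (hl : C.Ample X l) : l ∈ C.A X 1 := by
  obtain ⟨m, Q, Y, φ, ψ, a, hm, -, -, -, e⟩ := hl
  rw [W.glue_l φ hm e]
  refine W.n1_cyc_smul C.toWeil X _ (W.glue_A φ 1 _ ?_)
  rw [← W.vl_ln]
  exact glue_ln (C := W.nt C.toWeil) Y a

omit hC [IsAlgClosed k] [CharZero K] in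
theorem ample_lin (X : Var k P) {a : P.ι →₀ ℕ} (ha : ∀ i, 0 < a i) :
    C.Ample X (lin (C.hyp X) a) :=
  ⟨1, P, X, Hom.incl le_rfl, Hom.incl le_rfl, a, one_pos, rfl, ⟨fun _ => rfl, fun _ => rfl⟩, ha, by
    rw [one_smul, C.pull_id _ fun _ => rfl]⟩

theorem sec_main {S X : Var k P} (hX : IsIrreducible X.pts) {a : P.ι →₀ ℕ} (ha : ∀ i, 0 < a i)
    (h : Relation.TransGen (fun Y Z : Var k P => ∃ j : Hom Y Z, IsSec j a) S X)
    (hd : S.dim = 4) (hU : Uniruled S) (hL : LefA X.dim (C.A X) (lin (C.hyp X) a))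
    (l : C.H X) (hl : C.Ample X l) : Hdg (C.tr X) X.dim (C.A X) l 2 := by
  obtain ⟨m, j, hj⟩ := exists_dat C ha h
  have hm := hj.dim
  refine (main C.isWeil X (C.A X) (fun _ _ h => h) (fun c c' x hx y hy => C.alg_mul X c c' x y hx hy)
    (fun c q x hx => W.n1_cyc_smul C.toWeil X q hx) _ l (C.ample (ample_lin C X ha)) (C.ample hl)
    (ample_mem C (ample_lin C X ha)) (ample_mem C hl) hL 2 (by omega)).1 ?_
  refine W.hdg_two hC X hX m (by omega) ha (fun y hy => hL 2 m (by omega) y ?_)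
    (sec_sh C hC hU hX ha hj hd hL)
  rwa [add_comm]

end Pool.Agent.Work.MP_ffcd14_ag.Sct
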